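import Pool.Agent.helper66.FO.Spec

/-!
# fo:LTW — words along a line, their derivative
-/

set_option autoImplicit false

open Submodule

noncomputable section

namespace Pool.Agent.FO

open Pool.Agent.NN

universe u v

/-- the letter `a` -/
def LTW_c {U : Type v} {d : ℕ} (b : Fin d → U) (y : U) (a : Fin (d + 1)) : U :=
  (Fin.cons y b : Fin (d + 1) → U) a

theorem LTW_c_zero {U : Type v} {d : ℕ} (b : Fin d → U) (y : U) : LTW_c b y 0 = y := rfl

theorem LTW_c_succ {U : Type v} {d : ℕ} (b : Fin d → U) (y : U) (i : Fin d) :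
    LTW_c b y i.succ = b i := rfl

theorem LTW_val_nil {U : Type v} [Ring U] {d : ℕ} (b : Fin d → U) (y : U) : val b y [] = 1 := rfl

theorem LTW_val_cons {U : Type v} [Ring U] {d : ℕ} (b : Fin d → U) (y : U) (a : Fin (d + 1))
    (m : List (Fin (d + 1))) : val b y (a :: m) = LTW_c b y a * val b y m := by
  unfold val LTW_c
  rw [List.map_cons, List.prod_cons]

theorem LTW_DD_cons {U : Type v} [Ring U] {d : ℕ} (b : Fin d → U) (y y' : U) (a : Fin (d + 1))
    (m : List (Fin (d + 1))) :
    DD b y y' (a :: m) = (if a = 0 then y' else 0) * val b y m + LTW_c b y a * DD b y y' m := rfl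

theorem LTW_line {K : Type u} {U : Type v} [Field K] [Ring U] [Algebra K U] {d : ℕ} (b : Fin d → U)
    (y y' : U) (c : K) (a : Fin (d + 1)) :
    LTW_c b (y + c • y') a = LTW_c b y a + c • (if a = 0 then y' else 0) := by
  refine Fin.cases ?_ (fun i => ?_) a
  · rw [LTW_c_zero, LTW_c_zero, if_pos rfl]
  · rw [LTW_c_succ, LTW_c_succ, if_neg (Fin.succ_ne_zero i), smul_zero, add_zero]

/-- the coefficients of the expansion -/
def LTW_G {U : Type v} [Ring U] {d : ℕ} (b : Fin d → U) (y y' : U) : List (Fin (d + 1)) → ℕ → U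
  | [], _ => 0
  | a :: m, 0 => (if a = 0 then y' else 0) * val b y m + LTW_c b y a * LTW_G b y y' m 0
  | a :: m, i + 1 => LTW_c b y a * LTW_G b y y' m (i + 1) + (if a = 0 then y' else 0) * LTW_G b y y' m i

theorem LTW_G0 {U : Type v} [Ring U] {d : ℕ} (b : Fin d → U) (y y' : U) (m : List (Fin (d + 1))) :
    LTW_G b y y' m 0 = DD b y y' m := by
  induction m with
  | nil => rfl
  | cons a m ih =>
    rw [LTW_DD_cons, ← ih]
    rfl

theorem LTW_exp {K : Type u} {U : Type v} [Field K] [Ring U] [Algebra K U] {d : ℕ} (b : Fin d → U)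
    (y y' : U) (c : K) (m : List (Fin (d + 1))) : ∀ M : ℕ, m.length ≤ M →
    val b (y + c • y') m = val b y m + c • ∑ i ∈ Finset.range M, c ^ i • LTW_G b y y' m i := by
  induction m with
  | nil =>
    intro M _
    have h1 : ∀ i, LTW_G b y y' ([] : List (Fin (d + 1))) i = 0 := fun i => rfl
    simp only [h1, smul_zero, Finset.sum_const_zero, add_zero]
    rfl
  | cons a m ih =>
    intro M hM
    obtain ⟨M', rfl⟩ : ∃ M', M = M' + 1 := by
      cases M with
      | zero => simp at hM
      | succ M' => exact ⟨M', rfl⟩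
    have hM' : m.length ≤ M' := by
      simpa using hM
    have h0 : LTW_G b y y' (a :: m) 0 =
        (if a = 0 then y' else 0) * val b y m + LTW_c b y a * LTW_G b y y' m 0 := rfl
    have hs : ∀ i, LTW_G b y y' (a :: m) (i + 1) = LTW_c b y a * LTW_G b y y' m (i + 1) +
        (if a = 0 then y' else 0) * LTW_G b y y' m i := fun i => rfl
    have e1 := ih (M' + 1) (by omega)
    have e2 := ih M' hM'
    rw [Finset.sum_range_succ'] at e1 ⊢
    rw [LTW_val_cons, LTW_val_cons, LTW_line]
    generalize (if a = 0 then y' else 0) = e at *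
    generalize LTW_c b y a = C at *
    generalize val b y m = V at *
    generalize hV' : val b (y + c • y') m = V' at *
    simp only [h0, hs, pow_zero, one_smul, smul_add, Finset.sum_add_distrib] at e1 ⊢
    have s1 : ∑ x ∈ Finset.range M', c ^ (x + 1) • (C * LTW_G b y y' m (x + 1)) =
        C * ∑ x ∈ Finset.range M', c ^ (x + 1) • LTW_G b y y' m (x + 1) := by
      rw [Finset.mul_sum]
      exact Finset.sum_congr rfl fun x _ => by rw [mul_smul_comm]
    have s2 : ∑ x ∈ Finset.range M', c ^ (x + 1) • (e * LTW_G b y y' m x) =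
        e * (c • ∑ x ∈ Finset.range M', c ^ x • LTW_G b y y' m x) := by
      rw [Finset.smul_sum, Finset.mul_sum]
      exact Finset.sum_congr rfl fun x _ => by
        rw [mul_smul_comm, mul_smul_comm, smul_smul, pow_succ, mul_comm c]
    rw [s1, s2]
    have e3 : c • ∑ x ∈ Finset.range M', c ^ x • LTW_G b y y' m x = V' - V := by
      rw [e2]
      abel
    have e4 : c • ∑ x ∈ Finset.range M', c ^ (x + 1) • LTW_G b y y' m (x + 1) =
        V' - V - c • LTW_G b y y' m 0 := by
      rw [e1]
      abel
    rw [e3, ← mul_smul_comm, e4]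
    simp only [add_mul, mul_sub, smul_mul_assoc, mul_smul_comm, smul_sub]
    abel

/-- LTW -/
theorem LTW : LTW_stmt.{u, v} := by
  intro K U _ _ _ A hA d b y hb hy m
  refine ⟨fun y' => ?_, ?_, ?_⟩
  · exact ⟨m.length + 1, LTW_G b y y' m, Nat.succ_pos _, LTW_G0 b y y' m,
      fun c => LTW_exp b y y' c m _ (Nat.le_succ _)⟩
  · induction m with
    | nil =>
      rw [LTW_val_nil, List.count_nil, Nat.cast_zero, zero_smul]
      rfl
    | cons a m ih =>
      rw [LTW_DD_cons, LTW_val_cons, ih, List.count_cons]
      by_cases ha : a = 0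
      · subst ha
        rw [if_pos rfl, LTW_c_zero]
        simp only [beq_self_eq_true, if_true, Nat.cast_add, Nat.cast_one]
        rw [add_smul, one_smul, mul_smul_comm, add_comm]
      · rw [if_neg ha, zero_mul, zero_add, mul_smul_comm]
        have : (a == 0) = false := by simpa using ha
        rw [this]
        simp
  · have hA1 : (1 ⊔ A) * (1 ⊔ A) ≤ 1 ⊔ A := by
      rw [Submodule.sup_mul, Submodule.mul_sup, Submodule.mul_sup, one_mul, one_mul, mul_one]
      exact sup_le (sup_le le_sup_left le_sup_right)
        (sup_le le_sup_right (hA.trans le_sup_right))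
    have h1 : (1 : U) ∈ 1 ⊔ A := by
      apply Submodule.mem_sup_left
      rw [Submodule.mem_one]
      exact ⟨1, map_one _⟩
    have hc : ∀ a, LTW_c b y a ∈ 1 ⊔ A := by
      intro a
      refine Fin.cases ?_ (fun i => ?_) a
      · exact Submodule.mem_sup_right hy
      · exact Submodule.mem_sup_right (hb i)
    have hval : ∀ m : List (Fin (d + 1)), val b y m ∈ 1 ⊔ A := by
      intro m
      induction m with
      | nil => exact h1
      | cons a m ih =>
        rw [LTW_val_cons]
        exact hA1 (Submodule.mul_mem_mul (hc a) ih)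
    induction m with
    | nil => exact ⟨0, Fin.elim0, Fin.elim0, fun i => i.elim0, fun i => i.elim0, fun y' => by
        unfold Opr
        rw [Fin.sum_univ_zero]
        rfl⟩
    | cons a m ih =>
      obtain ⟨n, p, q, hp, hq, hpq⟩ := ih
      refine ⟨n + 1, Fin.cons (if a = 0 then 1 else 0) (fun i => LTW_c b y a * p i),
        Fin.cons (val b y m) q, ?_, ?_, ?_⟩
      · intro i
        refine Fin.cases ?_ (fun j => ?_) i
        · rw [Fin.cons_zero]
          split_ifs
          · exact h1
          · exact Submodule.zero_mem _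
        · rw [Fin.cons_succ]
          exact hA1 (Submodule.mul_mem_mul (hc a) (hp j))
      · intro i
        refine Fin.cases ?_ (fun j => ?_) i
        · rw [Fin.cons_zero]
          exact hval m
        · rw [Fin.cons_succ]
          exact hq j
      · intro y'
        rw [LTW_DD_cons, hpq]
        unfold Opr
        rw [Fin.sum_univ_succ]
        simp only [Fin.cons_zero, Fin.cons_succ]
        rw [Finset.mul_sum]
        congr 1
        · split_ifs
          · rw [one_mul]
          · rw [zero_mul, zero_mul, zero_mul]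
        · exact Finset.sum_congr rfl fun i _ => by simp only [mul_assoc]

end Pool.Agent.FO
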